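import Pool.Agent.helper38.TA.SpecK

/-!
# Project TA, row GVR
-/

set_option autoImplicit false

open Complex MeasureTheory Set

namespace Pool.Agent.TA

open Pool.Agent.BA (Par GG kl kf vf fV Bw Den PP wt lam gpf rgz)
open Pool.Agent.ZT (fP Bn NN Cen GF hm Sqf cmf lamA muA prm Eta NwD Cof thC LaC LfC FEQ Prs)

/-- the dominating function -/
noncomputable def GVR_D (A B : ℝ) (x : ℝ) : ℝ := if x ≤ 1 then A * x ^ (-(13 / 20) : ℝ) else B * x ^ (-2 : ℝ)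

theorem GVR_D_int (A B : ℝ) : IntegrableOn (GVR_D A B) (Ioi 0) := by
  have h1 : IntegrableOn (GVR_D A B) (Ioc 0 1) := by
    have h2 : IntegrableOn (fun x : ℝ => A * x ^ (-(13 / 20) : ℝ)) (Ioc 0 1) := by
      have h3 : IntervalIntegrable (fun x : ℝ => x ^ (-(13 / 20) : ℝ)) volume 0 1 :=
        intervalIntegral.intervalIntegrable_rpow' (by norm_num)
      exact ((intervalIntegrable_iff_integrableOn_Ioc_of_le zero_le_one).1 h3).const_mul A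
    refine h2.congr_fun ?_ measurableSet_Ioc
    intro x hx
    unfold GVR_D
    rw [if_pos hx.2]
  have h4 : IntegrableOn (GVR_D A B) (Ioi 1) := by
    have h2 : IntegrableOn (fun x : ℝ => B * x ^ (-2 : ℝ)) (Ioi 1) :=
      (integrableOn_Ioi_rpow_of_lt (by norm_num) one_pos).const_mul B
    refine h2.congr_fun ?_ measurableSet_Ioi
    intro x hx
    unfold GVR_D
    rw [if_neg (not_le.2 hx)]
  have h5 : Ioi (0 : ℝ) = Ioc 0 1 ∪ Ioi 1 := (Ioc_union_Ioi_eq_Ioi zero_le_one).symm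
  rw [h5]
  exact h1.union h4

theorem GVR_dom {w h : ℝ → ℝ} {A B : ℝ} (hwc : ContinuousOn w (Ioi 0)) (hw0 : ∀ x, 0 < x → 0 < w x)
    (hw1 : ∀ x, 1 ≤ x → w x ≤ 1) (hw2 : ∀ x, 0 < x → x ≤ 1 → w x = x ^ (-(1 / 20) : ℝ)) (hc : ContinuousOn h (Ioi 0))
    (h0 : ∀ x, 0 ≤ h x)
    (h1 : ∀ x, 0 < x → h x ≤ A * x ^ (-(3 / 5) : ℝ)) (h2 : ∀ x, 0 < x → h x ≤ B * x ^ (-2 : ℝ)) :
    IntegrableOn (fun x => w x * h x) (Ioi 0) := by
  have hle : ∀ x ∈ Ioi (0 : ℝ), w x * h x ≤ GVR_D A B x := by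
    intro x hx
    have hx0 : 0 < x := hx
    unfold GVR_D
    split_ifs with hx1
    · rw [hw2 x hx0 hx1]
      calc x ^ (-(1 / 20) : ℝ) * h x ≤ x ^ (-(1 / 20) : ℝ) * (A * x ^ (-(3 / 5) : ℝ)) :=
            mul_le_mul_of_nonneg_left (h1 x hx0) (Real.rpow_nonneg hx0.le _)
        _ = A * (x ^ (-(1 / 20) : ℝ) * x ^ (-(3 / 5) : ℝ)) := by ring
        _ = A * x ^ (-(13 / 20) : ℝ) := by
            rw [← Real.rpow_add hx0]
            norm_num
    · push Not at hx1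
      calc w x * h x ≤ 1 * h x := mul_le_mul_of_nonneg_right (hw1 x hx1.le) (h0 x)
        _ = h x := one_mul _
        _ ≤ B * x ^ (-2 : ℝ) := h2 x hx0
  have hnn : ∀ x ∈ Ioi (0 : ℝ), 0 ≤ w x * h x := fun x hx => mul_nonneg (hw0 x hx).le (h0 x)
  have hms : AEStronglyMeasurable (fun x => w x * h x) (volume.restrict (Ioi (0 : ℝ))) :=
    (hwc.mul hc).aestronglyMeasurable measurableSet_Ioi
  refine Integrable.mono' (GVR_D_int A B) hms ?_
  refine (ae_restrict_iff' measurableSet_Ioi).2 (Filter.Eventually.of_forall (fun x hx => ?_))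
  rw [Real.norm_eq_abs, abs_of_nonneg (hnn x hx)]
  exact hle x hx

theorem GVR_half (x : ℝ) (hx : 0 < x) :
    x ^ (-(1 / 2) : ℝ) ≤ x ^ (-(1 / 20) : ℝ) + x ^ (-(3 / 5) : ℝ) := by
  have p1 : 0 ≤ x ^ (-(1 / 20) : ℝ) := Real.rpow_nonneg hx.le _
  have p2 : 0 ≤ x ^ (-(3 / 5) : ℝ) := Real.rpow_nonneg hx.le _
  rcases le_total x 1 with h | h
  · have : x ^ (-(1 / 2) : ℝ) ≤ x ^ (-(3 / 5) : ℝ) :=
      Real.rpow_le_rpow_of_exponent_ge hx h (by norm_num)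
    linarith
  · have : x ^ (-(1 / 2) : ℝ) ≤ x ^ (-(1 / 20) : ℝ) :=
      Real.rpow_le_rpow_of_exponent_le h (by norm_num)
    linarith

theorem GVR_pow (t : ℝ) (ht : 0 ≤ t) (j : ℕ) (hj : j ≤ 3) :
    ‖(1 / 2 : ℂ) + t * I‖ ^ j ≤ (1 + t) ^ 3 := by
  have h1 : ‖(1 / 2 : ℂ) + t * I‖ ≤ 1 + t := by
    refine (norm_add_le _ _).trans ?_
    rw [norm_mul, Complex.norm_I, mul_one, Complex.norm_real, Real.norm_eq_abs, abs_of_nonneg ht]
    have : ‖(1 / 2 : ℂ)‖ ≤ 1 := by norm_num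
    linarith
  calc ‖(1 / 2 : ℂ) + t * I‖ ^ j ≤ (1 + t) ^ j := pow_le_pow_left₀ (norm_nonneg _) h1 j
    _ ≤ (1 + t) ^ 3 := pow_le_pow_right₀ (by linarith) hj

theorem GVR (hLAT : LAT_stmt) (hGDT : GDT_stmt) (hTAU : TAU_stmt) (zBNW : Pool.Agent.ZT.BNW_stmt)
    (bBW : Pool.Agent.BA.BW_stmt) : GVR_stmt := by
  intro n μ t w D hμ hS hw
  have hμ1 : Par 1 μ := ⟨le_trans (by norm_num) hμ.1, hμ.2⟩
  obtain ⟨CL, hCL, hL⟩ := hLAT n 3 μ hμ1 (by have := hμ.1; omega)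
  obtain ⟨CB, hCB, hB⟩ := zBNW n
  have hD : 0 < D := hS.D0
  have hgR : ∀ (j : ℕ) (v : VR) (x : ℝ), gR μ t j v x = (gT μ t j (v.1, 0, v.2) x).re :=
    fun j v x => (hGDT n j μ t hμ1).2.2 v x
  -- integrability
  have hint : ∀ (L : ℝ) (v : VR), 1 ≤ L → IntegrableOn (fun x => Bw L x * |gR μ t 0 v x|) (Ioi 0) := by
    intro L v hL1
    obtain ⟨-, hBwc, -⟩ := hB L hL1
    obtain ⟨b1, b2, -, -, -, b6⟩ := bBW L hL1
    obtain ⟨A, hA⟩ := (hGDT n 0 μ t hμ1).2.1.2.1 v (3 / 5) (by norm_num)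
    obtain ⟨B, hB'⟩ := (hGDT n 0 μ t hμ1).2.1.2.1 v 2 (by norm_num)
    refine GVR_dom (A := A) (B := B) hBwc b1 b2 b6 ?_ (fun x => abs_nonneg _) hA hB'
    exact ContinuousOn.abs fun x hx =>
      ((hGDT n 0 μ t hμ1).2.1.1 v x hx).continuousAt.continuousWithinAt
  have hM0 : ∀ (L : ℝ) (v : VR), 1 ≤ L → 0 ≤ MY L (gR μ t 0 v) := by
    intro L v hL1
    apply setIntegral_nonneg measurableSet_Ioi
    intro x hx
    exact mul_nonneg ((bBW L hL1).1 x hx).le (abs_nonneg _)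
  -- the bound for the coefficients
  have hsg : ∀ (L : ℝ) (v : VR), 1 ≤ L → sg μ t w v.2 ≤ 4 * D * MY L (gR μ t 0 v) := by
    intro L v hL1
    obtain ⟨i1, i2⟩ := hTAU n μ t w D hμ1 hS L (v.1, 0, v.2) hL1
    refine i2.trans ?_
    apply mul_le_mul_of_nonneg_left _ (by positivity)
    unfold MY
    refine setIntegral_mono_on i1 (hint L v hL1) measurableSet_Ioi fun x hx => ?_
    rw [← hgR 0 v x]
    exact mul_le_mul_of_nonneg_right (((hB L hL1).2.2.1 x hx).2.1) (abs_nonneg _)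
  -- the bound for the weighted norm
  have hwn : ∀ (L : ℝ) (v : VR), 1 ≤ L →
      (∫ y in Ioi (0 : ℝ), y ^ (-(1 / 20) : ℝ) * |(gT μ t 0 (v.1, 0, v.2) y).re|) ≤
        300 * MY L (gR μ t 0 v) := by
    intro L v hL1
    unfold MY
    rw [← integral_const_mul]
    apply integral_mono_of_nonneg
    · refine (ae_restrict_iff' measurableSet_Ioi).2 (Filter.Eventually.of_forall (fun x hx => ?_))
      exact mul_nonneg (Real.rpow_nonneg (le_of_lt hx) _) (abs_nonneg _)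
    · exact (hint L v hL1).const_mul 300
    · refine (ae_restrict_iff' measurableSet_Ioi).2 (Filter.Eventually.of_forall (fun x hx => ?_))
      have hx0 : 0 < x := hx
      simp only []
      rw [← hgR 0 v x, ← mul_assoc]
      exact mul_le_mul_of_nonneg_right (((bBW L hL1).2.2.2.1 x hx0).1) (abs_nonneg _)
  -- the bound for the sum over the heights
  have hsum : ∀ (v : VR) (j : ℕ), j ≤ 3 →
      v.2.sum (fun k a => |a| * ‖(1 / 2 : ℂ) + t k * I‖ ^ j * gh μ (t k)) ≤ sg μ t w v.2 := by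
    intro v j hj
    unfold sg Finsupp.sum
    apply Finset.sum_le_sum
    intro k _
    have hg0 : 0 ≤ gh μ (t k) := norm_nonneg _
    apply mul_le_mul_of_nonneg_right _ hg0
    apply mul_le_mul_of_nonneg_left _ (abs_nonneg _)
    exact (GVR_pow (t k) (hS.tn k) j hj).trans (hw k)
  refine ⟨300 * CL + 4 * D, ⟨by positivity, ?_, ?_, ?_, ?_, hint, ?_⟩, ?_⟩
  · intro j v x hx
    exact (hGDT n j μ t hμ1).2.1.1 v x hx
  · intro j v σ hσ
    exact (hGDT n j μ t hμ1).2.1.2.1 v σ hσ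
  · intro j v w' x
    exact (hGDT n j μ t hμ1).2.1.2.2.1 v w' x
  · intro j c v x
    exact (hGDT n j μ t hμ1).2.1.2.2.2 c v x
  · intro L v hL1 j hj x hx
    have p1 : 0 ≤ x ^ (-(1 / 20) : ℝ) := Real.rpow_nonneg hx.le _
    have p2 : 0 ≤ x ^ (-(3 / 5) : ℝ) := Real.rpow_nonneg hx.le _
    have p3 : 0 ≤ x ^ (-(1 / 2) : ℝ) := Real.rpow_nonneg hx.le _
    have hM := hM0 L v hL1
    set M := MY L (gR μ t 0 v) with hMd
    have e1 : |gR μ t j v x| ≤ CL * x ^ (-(1 / 20) : ℝ) *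
        (∫ y in Ioi (0 : ℝ), y ^ (-(1 / 20) : ℝ) * |(gT μ t 0 (v.1, 0, v.2) y).re|) +
        x ^ (-(1 / 2) : ℝ) * v.2.sum (fun k a => |a| * ‖(1 / 2 : ℂ) + t k * I‖ ^ j * gh μ (t k)) := by
      rw [hgR j v x]
      exact (hL j hj t (v.1, 0, v.2) x hx).1
    have e2 : CL * x ^ (-(1 / 20) : ℝ) *
        (∫ y in Ioi (0 : ℝ), y ^ (-(1 / 20) : ℝ) * |(gT μ t 0 (v.1, 0, v.2) y).re|) ≤
        CL * x ^ (-(1 / 20) : ℝ) * (300 * M) :=
      mul_le_mul_of_nonneg_left (hwn L v hL1) (by positivity)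
    have e3 : x ^ (-(1 / 2) : ℝ) *
        v.2.sum (fun k a => |a| * ‖(1 / 2 : ℂ) + t k * I‖ ^ j * gh μ (t k)) ≤
        (x ^ (-(1 / 20) : ℝ) + x ^ (-(3 / 5) : ℝ)) * (4 * D * M) := by
      refine (mul_le_mul_of_nonneg_left ((hsum v j hj).trans (hsg L v hL1)) p3).trans ?_
      exact mul_le_mul_of_nonneg_right (GVR_half x hx) (by positivity)
    have e4 : 0 ≤ CL * x ^ (-(3 / 5) : ℝ) * (300 * M) := by positivity
    calc |gR μ t j v x| ≤ CL * x ^ (-(1 / 20) : ℝ) * (300 * M) +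
          (x ^ (-(1 / 20) : ℝ) + x ^ (-(3 / 5) : ℝ)) * (4 * D * M) := by linarith
      _ ≤ CL * x ^ (-(1 / 20) : ℝ) * (300 * M) + CL * x ^ (-(3 / 5) : ℝ) * (300 * M) +
          (x ^ (-(1 / 20) : ℝ) + x ^ (-(3 / 5) : ℝ)) * (4 * D * M) := by linarith
      _ = (300 * CL + 4 * D) * (x ^ (-(1 / 20) : ℝ) + x ^ (-(3 / 5) : ℝ)) * M := by ring
  · intro L v hL1
    refine (hsg L v hL1).trans ?_
    have hM := hM0 L v hL1
    apply mul_le_mul_of_nonneg_right _ hM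
    linarith

end Pool.Agent.TA
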